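import Pool.Agent.Helper27.EX.LDefs
import Pool.Agent.Helper62.EX.TB

/-!
# MP_2857a5_co : far apart subsets
-/

set_option autoImplicit false

open Finset
open scoped Classical

namespace OT

noncomputable section

variable {n : ℕ}

theorem farset (Δ R : ℕ) (T : PTree n) (hΔ : T.Deg Δ) (S : Finset (Fin n)) :
    ∃ M ⊆ S, (∀ a ∈ M, ∀ b ∈ M, a ≠ b → b ∉ T.ball R a) ∧
      S.card ≤ (Δ + 2) ^ R * M.card := by
  set P : Finset (Finset (Fin n)) :=
    S.powerset.filter fun M => ∀ a ∈ M, ∀ b ∈ M, a ≠ b → b ∉ T.ball R a with hP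
  have hne : P.Nonempty := ⟨∅, by simp [hP]⟩
  obtain ⟨M, hM, hmax⟩ := exists_max_image P (fun M => M.card) hne
  have hM' := hM
  rw [hP, mem_filter, mem_powerset] at hM'
  refine ⟨M, hM'.1, hM'.2, ?_⟩
  have hcov : S ⊆ M.biUnion fun a => T.ball R a := by
    intro s hs
    rw [mem_biUnion]
    by_contra hcon
    push Not at hcon
    have hsM : s ∉ M := fun h => hcon s h (T.self_mem_ball R s)
    have hins : insert s M ∈ P := by
      rw [hP, mem_filter, mem_powerset]
      refine ⟨insert_subset hs hM'.1, ?_⟩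
      intro a ha b hb hab
      rw [mem_insert] at ha hb
      rcases ha with rfl | ha
      · rcases hb with rfl | hb
        · exact absurd rfl hab
        · intro h
          exact hcon b hb (PTree.mem_ball_comm.1 h)
      · rcases hb with rfl | hb
        · exact hcon a ha
        · exact hM'.2 a ha b hb hab
    have := hmax _ hins
    rw [card_insert_of_notMem hsM] at this
    omega
  calc S.card ≤ (M.biUnion fun a => T.ball R a).card := card_le_card hcov
    _ ≤ ∑ a ∈ M, (T.ball R a).card := card_biUnion_le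
    _ ≤ ∑ _a ∈ M, (Δ + 2) ^ R := sum_le_sum fun a _ => T.card_ball hΔ R a
    _ = (Δ + 2) ^ R * M.card := by rw [sum_const, smul_eq_mul, mul_comm]

end

end OT
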