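import Pool.Agent.Helper27.EX.RDefs
import Pool.Agent.Helper62.EX.TB
import Pool.Agent.Helper57.EX.FS
import Pool.Agent.Helper14.EX.LAY

/-!
# MP_2857a5_co : the tree in the case of many sources
-/

set_option autoImplicit false

open Finset
open scoped Classical

namespace OT

noncomputable section

variable {n : ℕ}

theorem ts_log (A : ℕ) (c : ℝ) (hc : 0 < c) : ∃ N : ℕ, ∀ n : ℕ, N ≤ n →
    (A : ℝ) * ((Nat.log 2 n : ℝ) + 1) ≤ c * (n : ℝ) := by
  obtain ⟨N, hN⟩ := exists_nat_gt (4 * (A : ℝ) ^ 2 / c ^ 2)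
  refine ⟨N + 1, fun n hn => ?_⟩
  have hn1 : 1 ≤ n := by omega
  have hk : ∀ k : ℕ, (k + 1) ^ 2 ≤ 4 * 2 ^ k := by
    intro k
    induction k with
    | zero => norm_num
    | succ k ih =>
      have h2 : k < 2 ^ k := Nat.lt_two_pow_self
      rcases Nat.lt_or_ge k 3 with h | h
      · interval_cases k <;> norm_num
      · rw [pow_succ 2 k]
        nlinarith
  have h1 := hk (Nat.log 2 n)
  have h2 : 2 ^ Nat.log 2 n ≤ n := Nat.pow_log_le_self 2 (by omega)
  have h3 : (Nat.log 2 n + 1) ^ 2 ≤ 4 * n := le_trans h1 (Nat.mul_le_mul_left 4 h2)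
  have h4 : ((Nat.log 2 n : ℝ) + 1) ^ 2 ≤ 4 * (n : ℝ) := by exact_mod_cast h3
  have h5 : 4 * (A : ℝ) ^ 2 ≤ c ^ 2 * (n : ℝ) := by
    have h6 : (N : ℝ) ≤ (n : ℝ) := by exact_mod_cast (by omega : N ≤ n)
    have h7 : 4 * (A : ℝ) ^ 2 / c ^ 2 < (n : ℝ) := lt_of_lt_of_le hN h6
    rw [div_lt_iff₀ (by positivity)] at h7
    linarith
  have hnn : (0 : ℝ) ≤ (n : ℝ) := Nat.cast_nonneg n
  have h8 : ((A : ℝ) * ((Nat.log 2 n : ℝ) + 1)) ^ 2 ≤ (c * (n : ℝ)) ^ 2 := by
    have e1 : ((A : ℝ) * ((Nat.log 2 n : ℝ) + 1)) ^ 2 =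
        (A : ℝ) ^ 2 * ((Nat.log 2 n : ℝ) + 1) ^ 2 := by ring
    have e2 : (c * (n : ℝ)) ^ 2 = (c ^ 2 * (n : ℝ)) * (n : ℝ) := by ring
    rw [e1, e2]
    calc (A : ℝ) ^ 2 * ((Nat.log 2 n : ℝ) + 1) ^ 2 ≤ (A : ℝ) ^ 2 * (4 * (n : ℝ)) :=
          mul_le_mul_of_nonneg_left h4 (by positivity)
      _ = (4 * (A : ℝ) ^ 2) * (n : ℝ) := by ring
      _ ≤ _ := mul_le_mul_of_nonneg_right h5 hnn
  exact le_of_sq_le_sq h8 (by positivity)

theorem ts_main (Δ : ℕ) (η : ℝ) (hη : 0 < η)
    (layout : ∀ (Δ R : ℕ) (η : ℝ) (_ : 0 < η), ∃ (K : ℕ) (η' : ℝ), 0 < η' ∧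
      ∀ (n : ℕ) (T : PTree n), T.Deg Δ → K ≤ n →
      ∀ pos far : Fin n → Bool, T.Alt pos far ∅ →
      ∀ h : Fin n → ℤ, (∀ v, |h v| ≤ 1) →
      ∀ M : Finset (Fin n), η * (n : ℝ) ≤ (M.card : ℝ) →
      ∃ F P Q : Finset (Fin n), Layout T pos far R F P Q ∧
        (P ∪ Q).card ≤ K * (Nat.log 2 n + 1) ∧
        |∑ v, h v * (if v ∈ F then -1 else 1)| ≤ K ∧
        η' * (n : ℝ) ≤ ((M ∩ F).card : ℝ) ∧ η' * (n : ℝ) ≤ ((M \ F).card : ℝ)) : ∃ (K : ℕ) (η' : ℝ), 0 < η' ∧
    ∀ (n : ℕ) (T : PTree n), T.Deg Δ → K ≤ n →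
    η * (n : ℝ) ≤ ((univ.filter fun v => T.Src v).card : ℝ) → ∀ τ : Bool,
    ∃ (pos : Fin n → Bool) (Tl : Finset (Fin n)) (hd : Fin n → Fin n) (M₁ M₀ : Finset (Fin n)),
      TreeS T τ K η' pos Tl hd M₁ M₀ := by
  set η₁ : ℝ := η / (2 * ((Δ : ℝ) + 2) ^ 3) with hη₁
  have hη₁p : 0 < η₁ := by positivity
  obtain ⟨K₁, η₂, hη₂, hlay⟩ := layout Δ 5 η₁ hη₁p
  obtain ⟨N, hN⟩ := ts_log (K₁ * (Δ + 2) ^ 4) (η₂ / 2) (by positivity)
  refine ⟨K₁ + N, η₂ / 2, by positivity, ?_⟩
  intro n T hT hn hsrc τ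
  -- the marks
  obtain ⟨c, hc⟩ : ∃ c : Bool, η * (n : ℝ) ≤
      2 * ((univ.filter fun v => T.Src v ∧ T.col v = c).card : ℝ) := by
    have hsplit : (univ.filter fun v => T.Src v).card =
        (univ.filter fun v => T.Src v ∧ T.col v = true).card +
        (univ.filter fun v => T.Src v ∧ T.col v = false).card := by
      rw [← card_union_of_disjoint]
      · congr 1
        ext v
        simp only [mem_filter, mem_univ, true_and, mem_union]
        cases T.col v <;> simp
      · rw [disjoint_left]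
        intro v hv hv'
        simp only [mem_filter, mem_univ, true_and] at hv hv'
        rw [hv.2] at hv'
        exact absurd hv'.2 (by simp)
    by_contra hcon
    push Not at hcon
    have h1 := hcon true
    have h2 := hcon false
    rw [hsplit] at hsrc
    push_cast at hsrc
    linarith
  obtain ⟨M, hMS, hMsep, hMcard⟩ := farset Δ 3 T hT
    (univ.filter fun v => T.Src v ∧ T.col v = c)
  have hMsrc : ∀ x ∈ M, T.Src x := fun x hx => (mem_filter.1 (hMS hx)).2.1
  have hMcol : ∀ x ∈ M, T.col x = c := fun x hx => (mem_filter.1 (hMS hx)).2.2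
  have hMbig : η₁ * (n : ℝ) ≤ (M.card : ℝ) := by
    have h1 : ((univ.filter fun v => T.Src v ∧ T.col v = c).card : ℝ) ≤
        ((Δ : ℝ) + 2) ^ 3 * (M.card : ℝ) := by exact_mod_cast hMcard
    rw [hη₁, div_mul_eq_mul_div, div_le_iff₀ (by positivity)]
    nlinarith
  have hAlt : T.Alt T.col (fun _ => false) ∅ := by
    intro v hv _
    right
    rw [T.col_par v hv]
    cases T.col (T.par v) <;> simp
  obtain ⟨F, P, Q, hL, hcard, hbal, hMF, hMF'⟩ := hlay n T hT (by omega) T.col (fun _ => false)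
    hAlt (fun v => if T.col v = true then 1 else -1)
    (by intro v; split_ifs <;> simp) M hMbig
  have hQbd : ∀ v, v ∈ Q ↔ v ∈ T.bd F := by
    intro v
    constructor
    · exact fun h => (hL.sgl v h).1
    · intro h
      rcases hL.bd v h with h' | h'
      · exact h'
      · exact absurd h'.1 (by simp)
  set tail : Fin n → Fin n := fun v => if T.sg v = true then T.par v else v with htail
  set head : Fin n → Fin n := fun v => if T.sg v = true then v else T.par v with hhead
  set x₀ : Fin n → Bool := fun v => xor (T.col v) (decide (v ∈ F)) with hx₀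
  set pos : Fin n → Bool := fun v => (x₀ v == τ) with hpos
  have hposx : ∀ u v, pos u = pos v ↔ x₀ u = x₀ v := by
    intro u v
    simp only [hpos]
    cases x₀ u <;> cases x₀ v <;> cases τ <;> simp
  have hposτ : ∀ u, pos u = τ ↔ x₀ u = true := by
    intro u
    simp only [hpos]
    cases x₀ u <;> cases τ <;> simp
  -- edges
  have hQne : ∀ v ∈ Q, (v : ℕ) ≠ 0 := by
    intro v hv
    have := (hQbd v).1 hv
    rw [PTree.bd, mem_filter] at this
    exact this.2.1
  have hQx : ∀ v ∈ Q, x₀ v = true ∧ x₀ (T.par v) = true := by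
    intro v hv
    have h1 := (hL.sgl v hv).2
    have h2 := (hQbd v).1 hv
    rw [PTree.bd, mem_filter] at h2
    have h3 := T.col_par v h2.2.1
    refine ⟨h1, ?_⟩
    have h4 := h2.2.2
    simp only [hx₀]
    by_cases hvF : v ∈ F
    · have hpF : T.par v ∉ F := fun h => h4 ⟨fun _ => h, fun _ => hvF⟩
      simp only [hvF, decide_true, Bool.xor_true] at h1
      simp only [hpF, decide_false, Bool.xor_false]
      rw [h3] at h1
      simpa using h1
    · have hpF : T.par v ∈ F := by
        by_contra h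
        exact h4 ⟨fun h' => absurd h' hvF, fun h' => absurd h' h⟩
      simp only [hvF, decide_false, Bool.xor_false] at h1
      simp only [hpF, decide_true, Bool.xor_true]
      rw [h3] at h1
      simpa using h1
  have hNQ : ∀ v : Fin n, (v : ℕ) ≠ 0 → v ∉ Q → x₀ v ≠ x₀ (T.par v) := by
    intro v hv hvQ
    have h1 : ¬ (v ∈ T.bd F) := fun h => hvQ ((hQbd v).2 h)
    have h2 : (v ∈ F ↔ T.par v ∈ F) := by
      by_contra h
      exact h1 (by rw [PTree.bd, mem_filter]; exact ⟨mem_univ _, hv, h⟩)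
    have h3 := T.col_par v hv
    simp only [hx₀]
    rw [h3]
    by_cases hvF : v ∈ F
    · have hpF := h2.1 hvF
      simp only [hvF, hpF]
      cases T.col (T.par v) <;> simp
    · have hpF : T.par v ∉ F := fun h => hvF (h2.2 h)
      simp only [hvF, hpF]
      cases T.col (T.par v) <;> simp
  have hNb : ∀ v ∈ Q, T.Nb v (T.par v) := by
    intro v hv
    right
    exact ⟨hQne v hv, rfl⟩
  have htb : ∀ v ∈ Q, tail v ∈ T.ball 1 v := by
    intro v hv
    simp only [htail]
    split_ifs
    · exact (hNb v hv).mem_ball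
    · exact T.self_mem_ball 1 v
  have htb' : ∀ v ∈ Q, v ∈ T.ball 1 (tail v) := fun v hv => PTree.mem_ball_comm.1 (htb v hv)
  have hQsep : ∀ v ∈ Q, ∀ v' ∈ Q, v ≠ v' → v' ∉ T.ball 5 v := by
    intro v hv v' hv' hne
    exact hL.sep v (mem_union_right _ hv) v' (mem_union_right _ hv') hne
  have htinj : ∀ v ∈ Q, ∀ v' ∈ Q, tail v = tail v' → v = v' := by
    intro v hv v' hv' he
    by_contra hne
    apply hQsep v hv v' hv' hne
    apply T.ball_mono (j := 2) (by norm_num)
    have h1 := htb v hv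
    have h2 := htb' v' hv'
    rw [← he] at h2
    exact T.ball_trans h1 h2
  set hd : Fin n → Fin n := fun x =>
    if h : ∃ v ∈ Q, tail v = x then head h.choose else x with hhd
  have hhdv : ∀ v ∈ Q, hd (tail v) = head v := by
    intro v hv
    have hex : ∃ v' ∈ Q, tail v' = tail v := ⟨v, hv, rfl⟩
    simp only [hhd]
    rw [dif_pos hex]
    have h1 := hex.choose_spec
    rw [htinj _ h1.1 v hv h1.2]
  have hQcard : Q.card ≤ K₁ * (Nat.log 2 n + 1) :=
    le_trans (card_le_card subset_union_right) hcard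
  -- the vertices near the cut edges
  set Bad : Finset (Fin n) := Q.biUnion fun v => T.ball 4 v with hBad
  have hBadcard : (Bad.card : ℝ) ≤ η₂ / 2 * (n : ℝ) := by
    have h1 : Bad.card ≤ Q.card * (Δ + 2) ^ 4 := by
      calc Bad.card ≤ ∑ v ∈ Q, (T.ball 4 v).card := card_biUnion_le
        _ ≤ ∑ _v ∈ Q, (Δ + 2) ^ 4 := sum_le_sum fun v _ => T.card_ball hT 4 v
        _ = Q.card * (Δ + 2) ^ 4 := by rw [sum_const, smul_eq_mul]
    have h2 : Bad.card ≤ (K₁ * (Δ + 2) ^ 4) * (Nat.log 2 n + 1) := by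
      calc Bad.card ≤ Q.card * (Δ + 2) ^ 4 := h1
        _ ≤ (K₁ * (Nat.log 2 n + 1)) * (Δ + 2) ^ 4 := Nat.mul_le_mul_right _ hQcard
        _ = _ := by ring
    have h3 : (Bad.card : ℝ) ≤ ((K₁ * (Δ + 2) ^ 4 : ℕ) : ℝ) * ((Nat.log 2 n : ℝ) + 1) := by
      exact_mod_cast h2
    exact le_trans h3 (hN n (by omega))
  have hbig : ∀ A : Finset (Fin n), η₂ * (n : ℝ) ≤ (A.card : ℝ) →
      η₂ / 2 * (n : ℝ) ≤ ((A \ Bad).card : ℝ) := by
    intro A hA
    have h1 : A.card ≤ (A \ Bad).card + Bad.card := by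
      have := card_le_card (show A ⊆ (A \ Bad) ∪ Bad by
        intro x hx
        by_cases h : x ∈ Bad
        · exact mem_union_right _ h
        · exact mem_union_left _ (mem_sdiff.2 ⟨hx, h⟩))
      exact le_trans this (card_union_le _ _)
    have h2 : (A.card : ℝ) ≤ ((A \ Bad).card : ℝ) + (Bad.card : ℝ) := by exact_mod_cast h1
    linarith
  -- which of the two parts of `M` is on which side
  have hposM : ∀ b : Bool, η₂ * (n : ℝ) ≤ ((M.filter fun x => pos x = b).card : ℝ) := by
    intro b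
    have h1 : (M.filter fun x => pos x = b) = M ∩ F ∨ (M.filter fun x => pos x = b) = M \ F := by
      by_cases h : (xor c true == τ) = b
      · left
        ext x
        rw [mem_filter, mem_inter]
        constructor
        · rintro ⟨hx, hxb⟩
          refine ⟨hx, ?_⟩
          by_contra hxF
          simp only [hpos, hx₀, hMcol x hx, hxF, decide_false] at hxb
          revert h hxb
          cases c <;> cases τ <;> cases b <;> simp
        · rintro ⟨hx, hxF⟩
          refine ⟨hx, ?_⟩
          simp only [hpos, hx₀, hMcol x hx, hxF, decide_true]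
          exact h
      · right
        ext x
        rw [mem_filter, mem_sdiff]
        constructor
        · rintro ⟨hx, hxb⟩
          refine ⟨hx, ?_⟩
          intro hxF
          simp only [hpos, hx₀, hMcol x hx, hxF, decide_true] at hxb
          exact h hxb
        · rintro ⟨hx, hxF⟩
          refine ⟨hx, ?_⟩
          simp only [hpos, hx₀, hMcol x hx, hxF, decide_false]
          revert h
          cases c <;> cases τ <;> cases b <;> simp
    rcases h1 with h1 | h1
    · rw [h1]; exact hMF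
    · rw [h1]; exact hMF'
  refine ⟨pos, Q.image tail, hd, (M.filter fun x => pos x = true) \ Bad,
    (M.filter fun x => pos x = false) \ Bad, ?_⟩
  have hMM : ∀ x, x ∈ ((M.filter fun x => pos x = true) \ Bad) ∪
      ((M.filter fun x => pos x = false) \ Bad) → x ∈ M ∧ x ∉ Bad := by
    intro x hx
    rw [mem_union, mem_sdiff, mem_sdiff, mem_filter, mem_filter] at hx
    rcases hx with hx | hx
    · exact ⟨hx.1.1, hx.2⟩
    · exact ⟨hx.1.1, hx.2⟩
  have hTM : ∀ v ∈ Q, ∀ b, b ∉ Bad → b ∉ T.ball 3 (tail v) := by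
    intro v hv b hb hcon
    apply hb
    rw [hBad, mem_biUnion]
    refine ⟨v, hv, ?_⟩
    exact T.ball_trans (j := 1) (k := 3) (htb v hv) hcon
  refine ⟨?_, ?_, ?_, ?_, ?_, ?_, ?_, ?_, ?_, ?_⟩
  · -- cardTl
    calc (Q.image tail).card ≤ Q.card := card_image_le
      _ ≤ K₁ * (Nat.log 2 n + 1) := hQcard
      _ ≤ (K₁ + N) * (Nat.log 2 n + 1) := Nat.mul_le_mul_right _ (by omega)
  · -- bal
    have h1 : ∑ v : Fin n, ((if T.col v = true then (1 : ℤ) else -1) *
        (if v ∈ F then -1 else 1)) = ∑ v : Fin n, (if x₀ v = true then (1 : ℤ) else -1) := by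
      apply sum_congr rfl
      intro v _
      simp only [hx₀]
      by_cases hvF : v ∈ F <;> cases hcv : T.col v <;> simp [hvF]
    have h2 : ∑ v : Fin n, (if x₀ v = true then (1 : ℤ) else -1) =
        2 * ((univ.filter fun v => x₀ v = true).card : ℤ) - n := by
      have h3 : ∀ v : Fin n, (if x₀ v = true then (1 : ℤ) else -1) =
          2 * (if x₀ v = true then (1 : ℤ) else 0) - 1 := by
        intro v; split_ifs <;> norm_num
      rw [sum_congr rfl fun v _ => h3 v, sum_sub_distrib, ← mul_sum, sum_boole]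
      simp
    rw [h1, h2] at hbal
    have h4 : ((univ.filter fun v => x₀ v = true).card : ℤ) +
        ((univ.filter fun v => x₀ v = false).card : ℤ) = n := by
      have h5 := card_filter_add_card_filter_not (s := (univ : Finset (Fin n)))
        (fun v => x₀ v = true)
      have h6 : (univ.filter fun v => ¬ (x₀ v = true)) = univ.filter fun v => x₀ v = false := by
        ext v; simp
      rw [h6, card_univ, Fintype.card_fin] at h5
      exact_mod_cast h5
    have h7 : (|2 * ((univ.filter fun v => pos v = true).card : ℤ) - n| : ℤ) ≤ K₁ := by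
      cases τ
      · have h8 : (univ.filter fun v => pos v = true) = univ.filter fun v => x₀ v = false := by
          ext v
          simp only [hpos, mem_filter, mem_univ, true_and]
          cases x₀ v <;> simp
        rw [h8]
        rw [abs_le] at hbal ⊢
        constructor <;> linarith [hbal.1, hbal.2]
      · have h8 : (univ.filter fun v => pos v = true) = univ.filter fun v => x₀ v = true := by
          ext v
          simp only [hpos, mem_filter, mem_univ, true_and]
          cases x₀ v <;> simp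
        rw [h8]
        exact hbal
    push_cast
    have h9 : (0 : ℤ) ≤ (N : ℤ) := Int.natCast_nonneg N
    linarith
  · exact hbig _ (hposM true)
  · exact hbig _ (hposM false)
  · intro x hx
    exact hMsrc x (hMM x hx).1
  · intro x hx
    exact (mem_filter.1 (mem_sdiff.1 hx).1).2
  · intro x hx
    exact (mem_filter.1 (mem_sdiff.1 hx).1).2
  · -- sep
    intro a ha b hb hab
    rw [union_assoc, mem_union] at ha hb
    rcases ha with ha | ha
    · obtain ⟨v, hv, rfl⟩ := mem_image.1 ha
      rcases hb with hb | hb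
      · obtain ⟨v', hv', rfl⟩ := mem_image.1 hb
        intro hcon
        have hne : v ≠ v' := fun h => hab (by rw [h])
        apply hQsep v hv v' hv' hne
        have h1 : tail v' ∈ T.ball (1 + 3) v := T.ball_trans (htb v hv) hcon
        exact T.ball_trans (j := 4) (k := 1) h1 (htb' v' hv')
      · exact hTM v hv b (hMM b hb).2
    · rcases hb with hb | hb
      · obtain ⟨v', hv', rfl⟩ := mem_image.1 hb
        intro hcon
        exact hTM v' hv' a (hMM a ha).2 (PTree.mem_ball_comm.1 hcon)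
      · exact hMsep a (hMM a ha).1 b (hMM b hb).1 hab
  · -- tl
    intro x hx
    obtain ⟨v, hv, rfl⟩ := mem_image.1 hx
    refine ⟨?_, ?_, ?_, ?_⟩
    · intro hcon
      exact hTM v hv _ (hMM _ hcon).2 (T.self_mem_ball 3 _)
    · rw [hhdv v hv]
      simp only [htail, hhead]
      by_cases hs : T.sg v = true
      · simp only [hs, if_true]
        left
        exact ⟨hQne v hv, rfl, hs⟩
      · simp only [hs]
        right
        refine ⟨hQne v hv, rfl, ?_⟩
        simpa using hs
    · rw [hposτ]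
      simp only [htail]
      split_ifs
      · exact (hQx v hv).2
      · exact (hQx v hv).1
    · rw [hhdv v hv, hposτ]
      simp only [hhead]
      split_ifs
      · exact (hQx v hv).1
      · exact (hQx v hv).2
  · -- arc
    intro x y hxy
    rcases hxy with ⟨hy0, hpar, hs⟩ | ⟨hx0, hpar, hs⟩
    · by_cases hyQ : y ∈ Q
      · right
        have h1 : tail y = x := by simp only [htail, hs, if_true]; exact hpar
        refine ⟨mem_image.2 ⟨y, hyQ, h1⟩, ?_⟩
        rw [← h1, hhdv y hyQ]
        simp only [hhead, hs, if_true]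
      · left
        intro hcon
        have h1 := hNQ y hy0 hyQ
        rw [hpar] at h1
        exact h1 ((hposx x y).1 hcon).symm
    · by_cases hxQ : x ∈ Q
      · right
        have h1 : tail x = x := by simp [htail, hs]
        refine ⟨mem_image.2 ⟨x, hxQ, h1⟩, ?_⟩
        have h2 := hhdv x hxQ
        rw [h1] at h2
        rw [h2]
        simp [hhead, hs, hpar]
      · left
        intro hcon
        have h1 := hNQ x hx0 hxQ
        rw [hpar] at h1
        exact h1 ((hposx x y).1 hcon)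

theorem treeS (Δ : ℕ) (η : ℝ) (hη : 0 < η) : ∃ (K : ℕ) (η' : ℝ), 0 < η' ∧
    ∀ (n : ℕ) (T : PTree n), T.Deg Δ → K ≤ n →
    η * (n : ℝ) ≤ ((univ.filter fun v => T.Src v).card : ℝ) → ∀ τ : Bool,
    ∃ (pos : Fin n → Bool) (Tl : Finset (Fin n)) (hd : Fin n → Fin n) (M₁ M₀ : Finset (Fin n)),
      TreeS T τ K η' pos Tl hd M₁ M₀ :=
  ts_main Δ η hη layout

end

end OT
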