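import Pool.Agent.Helper89.EX.Defs

/-!
# MP_5176ab_co: module CN (weighted counting of the patterns)
-/

set_option autoImplicit false

namespace EX

open Finset SimpleGraph Filter Topology

open scoped Classical

noncomputable section

private theorem cn_card (k n : ℕ) :
    ((univ : Finset (Fin k → Fin n)).filter fun x => StrictMono x).card ≤ n.choose k := by
  have h1 : ((univ : Finset (Fin n)).powersetCard k).card = n.choose k := by
    rw [Finset.card_powersetCard, Finset.card_univ, Fintype.card_fin]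
  rw [← h1]
  refine Finset.card_le_card_of_injOn (fun x => univ.image x) ?_ ?_
  · intro x hx
    have hx' := (Finset.mem_filter.1 (Finset.mem_coe.1 hx)).2
    rw [Finset.mem_coe, Finset.mem_powersetCard]
    refine ⟨Finset.subset_univ _, ?_⟩
    rw [Finset.card_image_of_injective _ hx'.injective, Finset.card_univ, Fintype.card_fin]
  · intro x hx y hy hxy
    have hx' := (Finset.mem_filter.1 (Finset.mem_coe.1 hx)).2
    have hy' := (Finset.mem_filter.1 (Finset.mem_coe.1 hy)).2
    rw [← StrictMono.range_inj hx' hy']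
    have h2 : ((univ.image x : Finset (Fin n)) : Set (Fin n)) =
        ((univ.image y : Finset (Fin n)) : Set (Fin n)) := congrArg _ hxy
    simpa using h2

theorem pattern (k m : ℕ) (σ ε : ℝ) (hσ : 0 ≤ σ) (hε : 0 < ε) : ∃ η : ℝ, 0 < η ∧
    ∀ (n : ℕ), k ≤ n → ∀ (F : Fin m → Finset (Fin (k + 1) → Fin n))
      (B : Fin m → Finset (Fin (k + 1))), (∀ j, ∀ e ∈ F j, StrictMono e) →
      (∀ j, ∀ b ∈ B j, ∀ e ∈ F j, ∀ e' ∈ F j, e ∘ b.succAbove = e' ∘ b.succAbove → e = e') →
      (∀ j, ∀ b ∈ B j, ∀ b' ∈ B j, ∀ e ∈ F j, ∀ e' ∈ F j,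
        e ∘ b.succAbove = e' ∘ b'.succAbove → b = b') →
      (∀ j, (F j).Nonempty → (B j).Nonempty) →
      (σ + ε) * (n.choose k : ℝ) ≤ ∑ j, ((F j).card : ℝ) →
      ∃ β : Fin m → Option (Fin (k + 1)), (∀ j b, β j = some b → b ∈ B j) ∧
        σ < ∑ j, (if β j = none then 0 else 1 / ((B j).card : ℝ)) ∧
        η * (n.choose k : ℝ) ≤ ((univ.filter fun x : Fin k → Fin n => StrictMono x ∧
          ∀ j b, β j = some b → ∃ e ∈ F j, e ∘ b.succAbove = x).card : ℝ) := by
  refine ⟨ε / (m + 1) / (k + 2) ^ m, by positivity, ?_⟩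
  intro n hkn F B hmono hinj hb hne hsum
  have hCpos : (0 : ℝ) < (n.choose k : ℝ) := by exact_mod_cast Nat.choose_pos hkn
  set X : Finset (Fin k → Fin n) := univ.filter fun x => StrictMono x with hX
  -- the pattern of `x`
  have hex : ∀ (x : Fin k → Fin n) (j : Fin m), ∃ o : Option (Fin (k + 1)),
      (∀ b, o = some b → b ∈ B j ∧ ∃ e ∈ F j, e ∘ b.succAbove = x) ∧
      (o = none → ¬ ∃ b ∈ B j, ∃ e ∈ F j, e ∘ b.succAbove = x) := by
    intro x j
    by_cases h : ∃ b ∈ B j, ∃ e ∈ F j, e ∘ b.succAbove = x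
    · obtain ⟨b, hbB, he⟩ := h
      refine ⟨some b, ?_, ?_⟩
      · intro b' hb'
        rw [← Option.some.inj hb']
        exact ⟨hbB, he⟩
      · intro h
        exact absurd h (by simp)
    · refine ⟨none, ?_, fun _ => h⟩
      intro b' hb'
      exact absurd hb' (by simp)
  choose β hβ1 hβ2 using hex
  set w : (Fin k → Fin n) → ℝ := fun x =>
    ∑ j, (if β x j = none then 0 else 1 / ((B j).card : ℝ)) with hw
  have hterm : ∀ (o : Option (Fin (k + 1))) (j : Fin m),
      (0 : ℝ) ≤ (if o = none then 0 else 1 / ((B j).card : ℝ)) ∧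
      (if o = none then 0 else 1 / ((B j).card : ℝ)) ≤ 1 := by
    intro o j
    by_cases h : o = none
    · rw [if_pos h]
      exact ⟨le_rfl, zero_le_one⟩
    · rw [if_neg h]
      refine ⟨by positivity, ?_⟩
      rcases Nat.eq_zero_or_pos (B j).card with h0 | h0
      · rw [h0]
        simp
      · rw [div_le_one (by exact_mod_cast h0)]
        exact_mod_cast h0
  have hwm : ∀ x, w x ≤ m := by
    intro x
    calc w x ≤ ∑ _j : Fin m, (1 : ℝ) := Finset.sum_le_sum fun j _ => (hterm _ j).2
      _ = m := by simp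
  -- the total weight
  have htot : ∑ j, ((F j).card : ℝ) ≤ ∑ x ∈ X, w x := by
    rw [hw, Finset.sum_comm]
    refine Finset.sum_le_sum fun j _ => ?_
    rcases Finset.eq_empty_or_nonempty (F j) with h0 | h0
    · rw [h0, Finset.card_empty, Nat.cast_zero]
      exact Finset.sum_nonneg fun x _ => (hterm _ j).1
    · have hBpos : 0 < (B j).card := Finset.card_pos.2 (hne j h0)
      have hBpos' : (0 : ℝ) < (B j).card := by exact_mod_cast hBpos
      have h1 : ∑ x ∈ X, (if β x j = none then 0 else 1 / ((B j).card : ℝ)) =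
          ((X.filter fun x => β x j ≠ none).card : ℝ) * (1 / ((B j).card : ℝ)) := by
        have h5 : ∑ x ∈ X.filter (fun x => β x j ≠ none), (1 / ((B j).card : ℝ)) =
            ((X.filter fun x => β x j ≠ none).card : ℝ) * (1 / ((B j).card : ℝ)) := by
          rw [Finset.sum_const, nsmul_eq_mul]
        rw [← h5, Finset.sum_filter (fun x => β x j ≠ none)]
        refine Finset.sum_congr rfl fun x _ => ?_
        by_cases h : β x j = none
        · rw [if_pos h, if_neg (not_not.2 h)]
        · rw [if_neg h, if_pos h]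
      rw [h1, mul_one_div, le_div_iff₀ hBpos']
      have h2 : (F j).card * (B j).card ≤ (X.filter fun x => β x j ≠ none).card := by
        rw [← Finset.card_product]
        refine Finset.card_le_card_of_injOn (fun p => p.1 ∘ p.2.succAbove) ?_ ?_
        · intro p hp
          rw [Finset.mem_coe, Finset.mem_product] at hp
          rw [Finset.mem_coe, Finset.mem_filter, hX, Finset.mem_filter]
          refine ⟨⟨mem_univ _, ?_⟩, ?_⟩
          · exact (hmono j _ hp.1).comp (Fin.strictMono_succAbove _)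
          · intro hnone
            exact hβ2 _ j hnone ⟨p.2, hp.2, p.1, hp.1, rfl⟩
        · intro p hp q hq hpq
          rw [Finset.mem_coe, Finset.mem_product] at hp hq
          have h3 : p.2 = q.2 := hb j _ hp.2 _ hq.2 _ hp.1 _ hq.1 hpq
          have h4 : p.1 ∘ p.2.succAbove = q.1 ∘ q.2.succAbove := hpq
          rw [← h3] at h4
          exact Prod.ext (hinj j _ hp.2 _ hp.1 _ hq.1 h4) h3
      exact_mod_cast h2
  -- many heavy `x`
  set X' : Finset (Fin k → Fin n) := X.filter fun x => σ < w x with hX'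
  have hXc : (X.card : ℝ) ≤ n.choose k := by exact_mod_cast cn_card k n
  have hupper : ∑ x ∈ X, w x ≤ σ * (n.choose k : ℝ) + m * X'.card := by
    have h1 : ∀ x ∈ X, w x ≤ σ + (if x ∈ X' then (m : ℝ) else 0) := by
      intro x hx
      by_cases h : σ < w x
      · rw [if_pos (Finset.mem_filter.2 ⟨hx, h⟩)]
        have := hwm x
        linarith
      · have h' : x ∉ X' := fun h' => h (Finset.mem_filter.1 h').2
        rw [if_neg h', add_zero]
        exact not_lt.1 h
    refine (Finset.sum_le_sum h1).trans ?_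
    rw [Finset.sum_add_distrib, Finset.sum_const, nsmul_eq_mul, Finset.sum_ite_mem,
      Finset.sum_const, nsmul_eq_mul]
    have h2 : X ∩ X' = X' := Finset.inter_eq_right.2 (Finset.filter_subset _ _)
    rw [h2]
    have h3 : (X.card : ℝ) * σ ≤ σ * (n.choose k : ℝ) := by
      rw [mul_comm]
      gcongr
    linarith [mul_comm (X'.card : ℝ) (m : ℝ)]
  have hX'c : ε / (m + 1) * (n.choose k : ℝ) ≤ X'.card := by
    have h1 : ε * (n.choose k : ℝ) ≤ m * X'.card := by nlinarith
    have h2 : (0 : ℝ) ≤ X'.card := Nat.cast_nonneg _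
    rw [div_mul_eq_mul_div, div_le_iff₀ (by positivity)]
    nlinarith
  obtain ⟨β0, -, hβ0⟩ := Finset.exists_le_card_fiber_of_nsmul_le_card_of_maps_to
    (s := X') (t := (univ : Finset (Fin m → Option (Fin (k + 1))))) (f := β)
    (b := ε / (m + 1) / (k + 2) ^ m * (n.choose k : ℝ)) (fun x _ => mem_univ _)
    ⟨fun _ => none, mem_univ _⟩ (by
      rw [Finset.card_univ, Fintype.card_fun, Fintype.card_option, Fintype.card_fin,
        Fintype.card_fin, nsmul_eq_mul]
      push_cast
      have e : ((k : ℝ) + 1 + 1) ^ m * (ε / (m + 1) / (k + 2) ^ m * (n.choose k : ℝ)) =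
          ε / (m + 1) * (n.choose k : ℝ) := by
        have e1 : (k : ℝ) + 1 + 1 = k + 2 := by ring
        rw [e1]
        field_simp
      rw [e]
      exact hX'c)
  have hpos : (0 : ℝ) < ((X'.filter fun x => β x = β0).card : ℝ) :=
    lt_of_lt_of_le (by positivity) hβ0
  obtain ⟨x0, hx0⟩ := Finset.card_pos.1 (by exact_mod_cast hpos :
    0 < (X'.filter fun x => β x = β0).card)
  obtain ⟨hx0X, hx0β⟩ := Finset.mem_filter.1 hx0
  refine ⟨β0, ?_, ?_, ?_⟩
  · intro j b hjb
    rw [← hx0β] at hjb
    exact (hβ1 x0 j b hjb).1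
  · have h1 := (Finset.mem_filter.1 hx0X).2
    rw [← hx0β]
    exact h1
  · refine hβ0.trans ?_
    have hsub : (X'.filter fun x => β x = β0) ⊆ univ.filter fun x : Fin k → Fin n =>
        StrictMono x ∧ ∀ j b, β0 j = some b → ∃ e ∈ F j, e ∘ b.succAbove = x := by
      intro x hx
      obtain ⟨hxX, hxβ⟩ := Finset.mem_filter.1 hx
      have hxm := (Finset.mem_filter.1 (Finset.mem_filter.1 hxX).1).2
      refine Finset.mem_filter.2 ⟨mem_univ _, hxm, ?_⟩
      intro j b hjb
      rw [← hxβ] at hjb
      exact (hβ1 x j b hjb).2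
    exact_mod_cast Finset.card_le_card hsub

end

end EX
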