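import Pool.Agent.Helper89.EX.Defs

/-!
# MP_5176ab_co: modules WT (choice of the set of centres) and BT (box theorem)
-/

set_option autoImplicit false

namespace EX

open Finset SimpleGraph Filter Topology

open scoped Classical

noncomputable section

theorem choose_W {n k : ℕ} {ι : Type} [Fintype ι] (S : Finset (Fin k → Fin n))
    (c : ι → (Fin k → Fin n) → Fin n) (hc : ∀ j, ∀ x ∈ S, ∀ l, c j x ≠ x l) :
    ∃ W : Finset (Fin n), S.card ≤ 2 ^ (k + Fintype.card ι) *
      (S.filter fun x => (∀ l, x l ∉ W) ∧ ∀ j, c j x ∈ W).card := by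
  by_contra hcon
  push Not at hcon
  have h1 : ∑ W : Finset (Fin n), 2 ^ (k + Fintype.card ι) *
      (S.filter fun x => (∀ l, x l ∉ W) ∧ ∀ j, c j x ∈ W).card < ∑ _W : Finset (Fin n), S.card :=
    Finset.sum_lt_sum_of_nonempty ⟨∅, mem_univ _⟩ (fun W _ => hcon W)
  rw [← Finset.mul_sum] at h1
  have h2 : ∑ W : Finset (Fin n), (S.filter fun x => (∀ l, x l ∉ W) ∧ ∀ j, c j x ∈ W).card =
      ∑ x ∈ S, ((univ : Finset (Finset (Fin n))).filter fun W =>
        (∀ l, x l ∉ W) ∧ ∀ j, c j x ∈ W).card := by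
    simp only [Finset.card_filter]
    exact Finset.sum_comm
  have h3 : ∀ x ∈ S, 2 ^ n ≤ 2 ^ (k + Fintype.card ι) * ((univ : Finset (Finset (Fin n))).filter
      fun W => (∀ l, x l ∉ W) ∧ ∀ j, c j x ∈ W).card := by
    intro x hx
    set R : Finset (Fin n) := univ.image x with hR
    set C : Finset (Fin n) := univ.image (fun j => c j x) with hC
    have hRc : R.card ≤ k := by
      refine Finset.card_image_le.trans ?_
      rw [Finset.card_univ, Fintype.card_fin]
    have hCc : C.card ≤ Fintype.card ι := by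
      refine Finset.card_image_le.trans ?_
      rw [Finset.card_univ]
    have hCR : C ⊆ Rᶜ := by
      intro v hv
      obtain ⟨j, -, rfl⟩ := Finset.mem_image.1 hv
      rw [Finset.mem_compl]
      intro hv'
      obtain ⟨l, -, hl⟩ := Finset.mem_image.1 hv'
      exact hc j x hx l hl.symm
    have hsub : Finset.Icc C Rᶜ ⊆ (univ : Finset (Finset (Fin n))).filter
        fun W => (∀ l, x l ∉ W) ∧ ∀ j, c j x ∈ W := by
      intro W hW
      rw [Finset.mem_Icc] at hW
      rw [Finset.mem_filter]
      refine ⟨mem_univ _, ?_, ?_⟩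
      · intro l hl
        have := hW.2 hl
        rw [Finset.mem_compl] at this
        exact this (Finset.mem_image_of_mem _ (mem_univ _))
      · intro j
        exact hW.1 (Finset.mem_image_of_mem _ (mem_univ _))
    have hcard := Finset.card_le_card hsub
    rw [Finset.card_Icc_finset hCR] at hcard
    refine le_trans ?_ (Nat.mul_le_mul_left _ hcard)
    rw [← pow_add]
    apply Nat.pow_le_pow_right (by norm_num)
    rw [Finset.card_compl, Fintype.card_fin]
    omega
  have h4 := Finset.sum_le_sum h3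
  rw [← Finset.mul_sum, ← h2] at h4
  have h5 := lt_of_le_of_lt h4 h1
  rw [Finset.sum_const, Finset.sum_const, Finset.card_univ, Fintype.card_finset,
    Fintype.card_fin, smul_eq_mul, smul_eq_mul, mul_comm] at h5
  exact absurd h5 (lt_irrefl _)

/-- a good shift -/
private theorem bt_shift {k n M : ℕ} [NeZero n] (S : Finset (Fin (k + 1) → Fin n)) :
    ∃ s : Fin n, M * S.card ≤ n * ∑ x : Fin k → Fin n,
      ((univ : Finset (Fin M)).filter fun i : Fin M =>
        (Fin.cons (s + Fin.ofNat n (i : ℕ)) x : Fin (k + 1) → Fin n) ∈ S).card := by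
  have h1 : ∀ i : Fin M, ∑ s : Fin n, ∑ x : Fin k → Fin n,
      (if (Fin.cons (s + Fin.ofNat n (i : ℕ)) x : Fin (k + 1) → Fin n) ∈ S then 1 else 0) = S.card := by
    intro i
    have e1 : ∑ s : Fin n, ∑ x : Fin k → Fin n,
        (if (Fin.cons (s + Fin.ofNat n (i : ℕ)) x : Fin (k + 1) → Fin n) ∈ S then 1 else 0) =
        ((univ : Finset (Fin n × (Fin k → Fin n))).filter fun p =>
          (Fin.cons (p.1 + Fin.ofNat n (i : ℕ)) p.2 : Fin (k + 1) → Fin n) ∈ S).card := by
      rw [Finset.card_filter, ← Finset.univ_product_univ, Finset.sum_product]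
    rw [e1]
    refine Finset.card_bij (fun p _ => (Fin.cons (p.1 + Fin.ofNat n (i : ℕ)) p.2 :
      Fin (k + 1) → Fin n)) ?_ ?_ ?_
    · intro p hp
      exact (Finset.mem_filter.1 hp).2
    · intro p _ q _ hpq
      have h2 := Fin.cons_injective2 hpq
      exact Prod.ext (add_right_cancel h2.1) h2.2
    · intro x hx
      refine ⟨(x 0 - Fin.ofNat n (i : ℕ), Fin.tail x), ?_, ?_⟩
      · rw [Finset.mem_filter]
        refine ⟨mem_univ _, ?_⟩
        simp only [sub_add_cancel, Fin.cons_self_tail]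
        exact hx
      · simp only [sub_add_cancel, Fin.cons_self_tail]
  have h2 : ∑ s : Fin n, ∑ x : Fin k → Fin n, ((univ : Finset (Fin M)).filter fun i : Fin M =>
      (Fin.cons (s + Fin.ofNat n (i : ℕ)) x : Fin (k + 1) → Fin n) ∈ S).card = M * S.card := by
    calc _ = ∑ i : Fin M, ∑ s : Fin n, ∑ x : Fin k → Fin n,
        (if (Fin.cons (s + Fin.ofNat n (i : ℕ)) x : Fin (k + 1) → Fin n) ∈ S then 1 else 0) := by
          simp only [Finset.card_filter]
          rw [Finset.sum_comm]
          refine (Finset.sum_congr rfl fun x _ => Finset.sum_comm).trans ?_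
          rw [Finset.sum_comm]
          exact Finset.sum_congr rfl fun i _ => Finset.sum_comm
      _ = M * S.card := by
          rw [Finset.sum_congr rfl (fun i _ => h1 i), Finset.sum_const, Finset.card_univ,
            Fintype.card_fin, smul_eq_mul]
  obtain ⟨s, -, hs⟩ := Finset.exists_le_of_sum_le (s := (univ : Finset (Fin n)))
    (f := fun _ => M * S.card) (g := fun s => n * ∑ x : Fin k → Fin n,
      ((univ : Finset (Fin M)).filter fun i : Fin M =>
        (Fin.cons (s + Fin.ofNat n (i : ℕ)) x : Fin (k + 1) → Fin n) ∈ S).card) ⟨0, mem_univ _⟩ (by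
      rw [← Finset.mul_sum, ← Finset.mul_sum, h2, Finset.sum_const, Finset.card_univ,
        Fintype.card_fin, smul_eq_mul]
      exact le_of_eq (by ring))
  exact ⟨s, hs⟩

theorem box_exists (k T : ℕ) (η : ℝ) (hη : 0 < η) : ∃ n0 : ℕ, ∀ n ≥ n0,
    ∀ S : Finset (Fin k → Fin n), η * (n : ℝ) ^ k ≤ S.card →
    ∃ Y : Fin k → Finset (Fin n), (∀ l, (Y l).card = T) ∧ ∀ x, Box Y x → x ∈ S := by
  induction k generalizing η with
  | zero =>
    refine ⟨0, fun n _ S hS => ⟨fun l => l.elim0, fun l => l.elim0, fun x _ => ?_⟩⟩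
    have h1 : 0 < S.card := by
      have : (0 : ℝ) < S.card := lt_of_lt_of_le (by positivity) hS
      exact_mod_cast this
    obtain ⟨y, hy⟩ := Finset.card_pos.1 h1
    rwa [Subsingleton.elim x y]
  | succ k ih =>
    set M : ℕ := ⌈2 * T / η⌉₊ + 1 with hM
    have hM1 : (2 * T / η : ℝ) ≤ M := by
      rw [hM]
      push_cast
      have := Nat.le_ceil (2 * T / η : ℝ)
      linarith
    have hMpos : (0 : ℝ) < M := by
      rw [hM]
      positivity
    obtain ⟨n1, h1⟩ := ih (η / 2 / 2 ^ M) (by positivity)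
    refine ⟨max n1 M, fun n hn S hS => ?_⟩
    have hn1 : n1 ≤ n := (le_max_left _ _).trans hn
    have hnM : M ≤ n := (le_max_right _ _).trans hn
    have hnpos : 0 < n := by omega
    have : NeZero n := ⟨hnpos.ne'⟩
    obtain ⟨s, hs⟩ := bt_shift (M := M) S
    set d : (Fin k → Fin n) → Finset (Fin M) := fun x =>
      (univ : Finset (Fin M)).filter fun i : Fin M =>
        (Fin.cons (s + Fin.ofNat n (i : ℕ)) x : Fin (k + 1) → Fin n) ∈ S with hd
    set G : Finset (Fin k → Fin n) := univ.filter fun x => T ≤ (d x).card with hG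
    have hsum : (M : ℝ) * η * (n : ℝ) ^ k ≤ ∑ x : Fin k → Fin n, ((d x).card : ℝ) := by
      have h2 : ((M * S.card : ℕ) : ℝ) ≤ ((n * ∑ x : Fin k → Fin n, (d x).card : ℕ) : ℝ) := by
        exact_mod_cast hs
      push_cast at h2
      have h3 : (M : ℝ) * (η * (n : ℝ) ^ (k + 1)) ≤ M * S.card := by gcongr
      have h4 : (n : ℝ) * ((M : ℝ) * η * (n : ℝ) ^ k) ≤
          n * ∑ x : Fin k → Fin n, ((d x).card : ℝ) := by
        calc (n : ℝ) * ((M : ℝ) * η * (n : ℝ) ^ k) = (M : ℝ) * (η * (n : ℝ) ^ (k + 1)) := by ring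
          _ ≤ _ := h3.trans h2
      exact le_of_mul_le_mul_left h4 (by exact_mod_cast hnpos)
    have hupper : ∑ x : Fin k → Fin n, ((d x).card : ℝ) ≤ T * (n : ℝ) ^ k + M * G.card := by
      have h2 : ∀ x : Fin k → Fin n, ((d x).card : ℝ) ≤ T + (if x ∈ G then (M : ℝ) else 0) := by
        intro x
        by_cases hx : x ∈ G
        · rw [if_pos hx]
          have h3 : (d x).card ≤ M := by
            refine (Finset.card_le_univ _).trans ?_
            rw [Fintype.card_fin]
          have h4 : ((d x).card : ℝ) ≤ M := by exact_mod_cast h3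
          have h5 : (0 : ℝ) ≤ T := Nat.cast_nonneg _
          linarith
        · rw [if_neg hx, add_zero]
          have h3 : ¬ T ≤ (d x).card := fun h => hx (Finset.mem_filter.2 ⟨mem_univ _, h⟩)
          have h4 : (d x).card ≤ T := by omega
          exact_mod_cast h4
      refine (Finset.sum_le_sum fun x _ => h2 x).trans ?_
      rw [Finset.sum_add_distrib, Finset.sum_const, Finset.card_univ, Fintype.card_fun,
        Fintype.card_fin, Fintype.card_fin, Finset.sum_ite_mem, Finset.univ_inter,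
        Finset.sum_const, nsmul_eq_mul, nsmul_eq_mul]
      push_cast
      rw [mul_comm, mul_comm (M : ℝ)]
    have hGcard : η / 2 * (n : ℝ) ^ k ≤ G.card := by
      have h2 : (T : ℝ) ≤ M * η / 2 := by
        rw [div_le_iff₀ hη] at hM1
        linarith
      have h3 : (T : ℝ) * (n : ℝ) ^ k ≤ M * η / 2 * (n : ℝ) ^ k := by gcongr
      have h4 : (M : ℝ) * (η / 2 * (n : ℝ) ^ k) ≤ M * G.card := by nlinarith
      exact le_of_mul_le_mul_left h4 hMpos
    have hZ : ∀ x : Fin k → Fin n, ∃ Z : Finset (Fin M), x ∈ G → Z ⊆ d x ∧ Z.card = T := by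
      intro x
      by_cases hx : x ∈ G
      · obtain ⟨Z, h2, h3⟩ := Finset.exists_subset_card_eq (Finset.mem_filter.1 hx).2
        exact ⟨Z, fun _ => ⟨h2, h3⟩⟩
      · exact ⟨∅, fun h => absurd h hx⟩
    choose Z hZ using hZ
    obtain ⟨Z0, -, hZ0⟩ := Finset.exists_le_card_fiber_of_nsmul_le_card_of_maps_to
      (s := G) (t := (univ : Finset (Finset (Fin M)))) (f := Z)
      (b := η / 2 / 2 ^ M * (n : ℝ) ^ k) (fun x _ => mem_univ _) ⟨∅, mem_univ _⟩ (by
        rw [Finset.card_univ, Fintype.card_finset, Fintype.card_fin, nsmul_eq_mul]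
        push_cast
        have e : (2 : ℝ) ^ M * (η / 2 / 2 ^ M * (n : ℝ) ^ k) = η / 2 * (n : ℝ) ^ k := by
          field_simp
        rw [e]
        exact hGcard)
    have hpos : (0 : ℝ) < ((G.filter fun x => Z x = Z0).card : ℝ) :=
      lt_of_lt_of_le (by positivity) hZ0
    have hZ0T : Z0.card = T := by
      have h2 : 0 < (G.filter fun x => Z x = Z0).card := by exact_mod_cast hpos
      obtain ⟨x, hx⟩ := Finset.card_pos.1 h2
      obtain ⟨hxG, hxZ⟩ := Finset.mem_filter.1 hx
      rw [← hxZ]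
      exact (hZ x hxG).2
    set S' : Finset (Fin k → Fin n) := univ.filter fun x => ∀ i ∈ Z0,
      (Fin.cons (s + Fin.ofNat n (i : ℕ)) x : Fin (k + 1) → Fin n) ∈ S with hS'
    have hsub : (G.filter fun x => Z x = Z0) ⊆ S' := by
      intro x hx
      obtain ⟨hxG, hxZ⟩ := Finset.mem_filter.1 hx
      rw [hS', Finset.mem_filter]
      refine ⟨mem_univ _, fun i hi => ?_⟩
      rw [← hxZ] at hi
      exact (Finset.mem_filter.1 ((hZ x hxG).1 hi)).2
    obtain ⟨Y', hY'1, hY'2⟩ := h1 n hn1 S' (hZ0.trans (by exact_mod_cast Finset.card_le_card hsub))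
    refine ⟨Fin.cons (Z0.image fun i : Fin M => s + Fin.ofNat n (i : ℕ)) Y', ?_, ?_⟩
    · intro l
      refine Fin.cases ?_ ?_ l
      · rw [Fin.cons_zero, Finset.card_image_of_injOn, hZ0T]
        intro i _ j _ hij
        have h2 : Fin.ofNat n (i : ℕ) = Fin.ofNat n (j : ℕ) := add_left_cancel hij
        have h3 := congrArg Fin.val h2
        rw [Fin.val_ofNat, Fin.val_ofNat, Nat.mod_eq_of_lt (lt_of_lt_of_le i.isLt hnM),
          Nat.mod_eq_of_lt (lt_of_lt_of_le j.isLt hnM)] at h3
        exact Fin.ext h3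
      · intro l'
        rw [Fin.cons_succ]
        exact hY'1 l'
    · intro x hx
      have h2 := hx 0
      rw [Fin.cons_zero] at h2
      obtain ⟨i, hi, hxi⟩ := Finset.mem_image.1 h2
      have h3 : Box Y' (Fin.tail x) := by
        intro l
        have := hx l.succ
        rw [Fin.cons_succ] at this
        exact this
      have h4 := hY'2 _ h3
      rw [hS', Finset.mem_filter] at h4
      have h5 := h4.2 i hi
      rw [hxi, Fin.cons_self_tail] at h5
      exact h5

end

end EX
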